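import Pool.Agent.Helper8.SPV.Stmts3

/-! # Module JAC: the Jacobian criterion -/

set_option autoImplicit false

namespace Pool.Agent.Helper8.SPV

open MvPolynomial

/-- the minor -/
noncomputable def JAC_m {k : Type} [Field k] (f : Fin 2 → MvPolynomial (Fin 4) k) (i1 i2 : Fin 4) :
    MvPolynomial (Fin 4) k :=
  pderiv i1 (f 0) * pderiv i2 (f 1) - pderiv i2 (f 0) * pderiv i1 (f 1)

theorem JAC_minor {k B : Type} [Field k] [CommRing B] [Algebra k B] (a : Fin 4 → B)
    (f : Fin 2 → MvPolynomial (Fin 4) k) (hs : Function.Surjective (aeval (R := k) a))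
    (hk : Ideal.span (Set.range f) = RingHom.ker (aeval (R := k) a)) (i1 i2 : Fin 4)
    (hne : i1 ≠ i2) : Algebra.Smooth k (Localization.Away (aeval a (JAC_m f i1 i2))) := by
  let G : Algebra.Generators k B (Fin 4) := Algebra.Generators.ofSurjective a hs
  let P : Algebra.PreSubmersivePresentation k B (Fin 4) (Fin 2) :=
    { __ := G
      relation := f
      span_range_relation_eq_ker := hk
      map := ![i1, i2]
      map_inj := by
        intro x y hxy
        fin_cases x <;> fin_cases y <;> simp_all }
  have hP : P.jacobian = aeval a (JAC_m f i1 i2) := by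
    rw [Algebra.PreSubmersivePresentation.jacobian_eq_jacobiMatrix_det, Matrix.det_fin_two]
    simp only [Algebra.PreSubmersivePresentation.jacobiMatrix_apply]
    change aeval a (pderiv i1 (f 0) * pderiv i2 (f 1) - pderiv i1 (f 1) * pderiv i2 (f 0)) =
      aeval a (pderiv i1 (f 0) * pderiv i2 (f 1) - pderiv i2 (f 0) * pderiv i1 (f 1))
    rw [mul_comm (pderiv i1 (f 1))]
  let Q := Algebra.PreSubmersivePresentation.localizationAway
    (Localization.Away (aeval a (JAC_m f i1 i2))) (aeval a (JAC_m f i1 i2))
  let QP : Algebra.SubmersivePresentation k (Localization.Away (aeval a (JAC_m f i1 i2)))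
      (Unit ⊕ Fin 4) (Unit ⊕ Fin 2) :=
    { __ := Q.comp P
      jacobian_isUnit := by
        rw [Algebra.PreSubmersivePresentation.comp_jacobian_eq_jacobian_smul_jacobian,
          Algebra.PreSubmersivePresentation.localizationAway_jacobian, hP, Algebra.smul_def]
        have h := IsLocalization.Away.algebraMap_isUnit (S := Localization.Away (aeval a (JAC_m f i1 i2)))
          (aeval a (JAC_m f i1 i2))
        exact h.mul h }
  have : Algebra.IsStandardSmooth k (Localization.Away (aeval a (JAC_m f i1 i2))) :=
    QP.isStandardSmooth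
  infer_instance

theorem st_JAC : ST_JAC := by
  classical
  intro k L _ _ _ _ _ a f h hf hgen hh hpt
  -- the generators
  let B := Algebra.adjoin k (Set.range a)
  let a' : Fin 4 → B := fun i => ⟨a i, Algebra.subset_adjoin ⟨i, rfl⟩⟩
  have hcoe : ∀ P : MvPolynomial (Fin 4) k, ((aeval a' P : B) : L) = aeval a P := by
    intro P
    have h1 : (B.val.comp (aeval a')) = aeval a := by
      ext i
      simp [a']
    exact DFunLike.congr_fun h1 P
  have hs : Function.Surjective (aeval (R := k) a') := by
    rintro ⟨x, hx⟩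
    have hx' : x ∈ (aeval a : MvPolynomial (Fin 4) k →ₐ[k] L).range := by
      rw [← Algebra.adjoin_range_eq_range_aeval]
      exact hx
    obtain ⟨P, hP⟩ := hx'
    exact ⟨P, Subtype.ext ((hcoe P).trans hP)⟩
  have hk : Ideal.span (Set.range f) = RingHom.ker (aeval (R := k) a') := by
    apply le_antisymm
    · rw [Ideal.span_le]
      rintro _ ⟨j, rfl⟩
      rw [SetLike.mem_coe, RingHom.mem_ker]
      exact Subtype.ext ((hcoe _).trans (hf j))
    · intro P hP
      rw [RingHom.mem_ker] at hP
      refine hgen P ?_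
      rw [← hcoe, hP]
      rfl
  have hfp : Algebra.FinitePresentation k B := by
    have : Algebra.FiniteType k B := Algebra.FiniteType.of_surjective (aeval (R := k) a') hs
    exact Algebra.FinitePresentation.of_finiteType.1 this
  refine ⟨?_, hfp⟩
  rw [← Algebra.smoothLocus_eq_univ_iff, Set.eq_univ_iff_forall]
  intro p
  -- the localization at h
  have hloc : aeval a' h ∉ p.asIdeal → p ∈ Algebra.smoothLocus k B := by
    intro hp
    have hp' : p ∈ (PrimeSpectrum.basicOpen (aeval a' h) : Set (PrimeSpectrum B)) := hp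
    refine (Algebra.basicOpen_subset_smoothLocus_iff.2 ?_) hp'
    have hne : aeval a h ≠ 0 := by
      intro h0
      apply hp
      have h1 : aeval a' h = 0 := Subtype.ext ((hcoe h).trans h0)
      rw [h1]
      exact p.asIdeal.zero_mem
    have hsm := hh hne
    let C := Algebra.adjoin k (Set.range a ∪ {(aeval a h)⁻¹})
    have hBC : B ≤ C := Algebra.adjoin_mono Set.subset_union_left
    let : Algebra B C := (Subalgebra.inclusion hBC).toAlgebra
    have : IsScalarTower k B C := IsScalarTower.of_algebraMap_eq fun c => rfl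
    have halg : ∀ b : B, ((algebraMap B C b : C) : L) = b := fun b => rfl
    have hinvC : (aeval a h)⁻¹ ∈ C := Algebra.subset_adjoin (Or.inr rfl)
    have hloc : IsLocalization.Away (aeval a' h) C := by
      have hprod : algebraMap B C (aeval a' h) * ⟨(aeval a h)⁻¹, hinvC⟩ = 1 := by
        apply Subtype.ext
        change ((aeval a' h : B) : L) * (aeval a h)⁻¹ = 1
        rw [hcoe, mul_inv_cancel₀ hne]
      refine IsLocalization.Away.mk _ (IsUnit.of_mul_eq_one _ hprod) ?_ ?_
      · rintro ⟨c, hc⟩
        have key : ∀ x ∈ C, ∃ (n : ℕ) (b : B), x * (aeval a h) ^ n = b := by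
          intro x hx
          refine Algebra.adjoin_induction ?_ ?_ ?_ ?_ hx
          · rintro x (hx | hx)
            · exact ⟨0, ⟨x, Algebra.subset_adjoin hx⟩, by rw [pow_zero, mul_one]⟩
            · rw [Set.mem_singleton_iff] at hx
              subst hx
              exact ⟨1, 1, by rw [pow_one, inv_mul_cancel₀ hne]; rfl⟩
          · intro r
            exact ⟨0, algebraMap k B r, by rw [pow_zero, mul_one]; rfl⟩
          · rintro x y - - ⟨n, b, hb⟩ ⟨n', b', hb'⟩
            refine ⟨n + n', b * (aeval a' h) ^ n' + b' * (aeval a' h) ^ n, ?_⟩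
            push_cast
            rw [hcoe, ← hb, ← hb']
            ring
          · rintro x y - - ⟨n, b, hb⟩ ⟨n', b', hb'⟩
            refine ⟨n + n', b * b', ?_⟩
            push_cast
            rw [← hb, ← hb']
            ring
        obtain ⟨n, b, hb⟩ := key c hc
        refine ⟨n, b, Subtype.ext ?_⟩
        change c * ((aeval a' h : B) : L) ^ n = b
        rw [hcoe, hb]
      · intro x y hxy
        refine ⟨0, ?_⟩
        rw [pow_zero, one_mul, one_mul]
        exact Subtype.ext (congrArg (Subtype.val : C → L) hxy)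
    have e : Localization.Away (aeval a' h) ≃ₐ[B] C :=
      IsLocalization.algEquiv (Submonoid.powers (aeval a' h)) _ _
    exact Algebra.FormallySmooth.of_equiv ((e.restrictScalars k).symm)
  by_contra hcon
  have hh0 : aeval a' h ∈ p.asIdeal := by
    by_contra h1
    exact hcon (hloc h1)
  have hm0 : ∀ i1 i2, aeval a' (JAC_m f i1 i2) ∈ p.asIdeal := by
    intro i1 i2
    by_cases hne : i1 = i2
    · subst hne
      have h1 : JAC_m f i1 i1 = 0 := by
        unfold JAC_m
        ring
      rw [h1, map_zero]
      exact p.asIdeal.zero_mem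
    · by_contra h1
      have hp' : p ∈ (PrimeSpectrum.basicOpen (aeval a' (JAC_m f i1 i2)) :
        Set (PrimeSpectrum B)) := h1
      exact hcon ((Algebra.basicOpen_subset_smoothLocus_iff.2
        (JAC_minor a' f hs hk i1 i2 hne).1) hp')
  -- a point
  obtain ⟨m, hm, hpm⟩ := Ideal.exists_le_maximal p.asIdeal p.isPrime.ne_top
  have : Algebra.FiniteType k B := Algebra.FiniteType.of_surjective (aeval (R := k) a') hs
  have hmf : Module.Finite k (B ⧸ m) := by
    let := Ideal.Quotient.field m
    have : Algebra.FiniteType k (B ⧸ m) := Algebra.FiniteType.of_surjective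
      (Ideal.Quotient.mkₐ k m) (Ideal.Quotient.mkₐ_surjective k m)
    exact finite_of_finite_type_of_isJacobsonRing k (B ⧸ m)
  have hb : Function.Bijective (algebraMap k (B ⧸ m)) := by
    let := Ideal.Quotient.field m
    exact IsAlgClosed.algebraMap_bijective_of_isIntegral
  let φ : B →ₐ[k] k := ((AlgEquiv.ofBijective (Algebra.ofId k (B ⧸ m)) hb).symm : B ⧸ m →ₐ[k] k).comp
    (Ideal.Quotient.mkₐ k m)
  have hφ : ∀ b ∈ p.asIdeal, φ b = 0 := by
    intro b hb
    have h1 : Ideal.Quotient.mkₐ k m b = 0 := by
      rw [Ideal.Quotient.mkₐ_eq_mk, Ideal.Quotient.eq_zero_iff_mem]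
      exact hpm hb
    rw [AlgHom.comp_apply, h1, map_zero]
  have hev : ∀ P : MvPolynomial (Fin 4) k, eval (fun i => φ (a' i)) P = φ (aeval a' P) := by
    intro P
    have h1 : (φ.comp (aeval a')) = aeval (fun i => φ (a' i)) := by
      ext i
      simp
    rw [← AlgHom.comp_apply, h1, aeval_eq_eval]
  rcases hpt (fun i => φ (a' i)) (fun j => by
    rw [hev]
    have h1 : aeval a' (f j) = 0 := Subtype.ext ((hcoe _).trans (hf j))
    rw [h1, map_zero]) with h1 | ⟨i1, i2, h1⟩
  · exact h1 (by rw [hev]; exact hφ _ hh0)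
  · exact h1 (by rw [hev]; exact hφ _ (hm0 i1 i2))

end Pool.Agent.Helper8.SPV
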