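import Pool.Agent.Helper8.SPV.Stmts3

/-! # Module SM: the four charts are smooth -/

set_option autoImplicit false

namespace Pool.Agent.Helper8.SPV

open MvPolynomial

/-- localizations of smooth subalgebras -/
theorem SM_loc {k L : Type} [Field k] [Field L] [Algebra k L] (B C : Subalgebra k L) (g : L)
    (hg : g ≠ 0) (hgB : g ∈ B) (hBC : B ≤ C) (hgC : g⁻¹ ∈ C)
    (hC : ∀ x ∈ C, ∃ (n : ℕ), x * g ^ n ∈ B) (h : Algebra.Smooth k B) : Algebra.Smooth k C := by
  let _ : Algebra B C := (Subalgebra.inclusion hBC).toAlgebra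
  have _ : IsScalarTower k B C := IsScalarTower.of_algebraMap_eq fun c => rfl
  let g' : B := ⟨g, hgB⟩
  have hloc : IsLocalization.Away g' C := by
    have hprod : algebraMap B C g' * ⟨g⁻¹, hgC⟩ = 1 := by
      apply Subtype.ext
      change g * g⁻¹ = 1
      rw [mul_inv_cancel₀ hg]
    refine IsLocalization.Away.mk _ (IsUnit.of_mul_eq_one _ hprod) ?_ ?_
    · rintro ⟨c, hc⟩
      obtain ⟨n, hn⟩ := hC c hc
      exact ⟨n, ⟨_, hn⟩, Subtype.ext rfl⟩
    · intro x y hxy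
      refine ⟨0, ?_⟩
      rw [pow_zero, one_mul, one_mul]
      exact Subtype.ext (congrArg (Subtype.val : C → L) hxy)
  have h1 : Algebra.Smooth B C := ⟨Algebra.FormallySmooth.of_isLocalization (.powers g'),
    IsLocalization.Away.finitePresentation g'⟩
  exact Algebra.Smooth.comp k B C

theorem SM_adj {k L : Type} [Field k] [Field L] [Algebra k L] (B : Subalgebra k L) (g : L)
    (hgB : g ∈ B) (s : Set L) (hs : ∀ x ∈ s, ∃ n : ℕ, x * g ^ n ∈ B) :
    ∀ x ∈ Algebra.adjoin k s, ∃ n : ℕ, x * g ^ n ∈ B := by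
  intro x hx
  refine Algebra.adjoin_induction hs ?_ ?_ ?_ hx
  · intro r
    exact ⟨0, by rw [pow_zero, mul_one]; exact B.algebraMap_mem r⟩
  · rintro x y - - ⟨n, hn⟩ ⟨m, hm⟩
    refine ⟨n + m, ?_⟩
    have h1 : (x + y) * g ^ (n + m) = x * g ^ n * g ^ m + y * g ^ m * g ^ n := by ring
    rw [h1]
    exact B.add_mem (B.mul_mem hn (B.pow_mem hgB _)) (B.mul_mem hm (B.pow_mem hgB _))
  · rintro x y - - ⟨n, hn⟩ ⟨m, hm⟩
    refine ⟨n + m, ?_⟩
    have h1 : x * y * g ^ (n + m) = (x * g ^ n) * (y * g ^ m) := by ring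
    rw [h1]
    exact B.mul_mem hn hm

theorem SM_QP {k : Type} [Field k] (b : Fin 10 → k) (P0 : Fin 4 → k) :
    eval P0 (QP b) = Qf b (P0 0) := by
  simp [QP, Qf]

theorem SM_dQP0 {k : Type} [Field k] (b : Fin 10 → k) (P0 : Fin 4 → k) :
    eval P0 (pderiv 0 (QP b)) = Qd b (P0 0) := by
  rw [QP, Qd, map_sum, map_sum]
  refine Finset.sum_congr rfl fun j _ => ?_
  rw [Derivation.leibniz, pderiv_C, smul_zero, add_zero, Derivation.leibniz_pow, pderiv_X_self]
  simp
  ring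

theorem SM_dQP {k : Type} [Field k] (b : Fin 10 → k) (i : Fin 4) (hi : i ≠ 0) :
    pderiv i (QP b) = 0 := by
  rw [QP, map_sum]
  refine Finset.sum_eq_zero fun j _ => ?_
  rw [Derivation.leibniz, pderiv_C, smul_zero, add_zero, Derivation.leibniz_pow,
    pderiv_X_of_ne hi.symm]
  simp

theorem SM_dQI {k : Type} [Field k] (b : Fin 10 → k) (i : Fin 4) (hi : i ≠ 0) (hi' : i ≠ 1) :
    pderiv i (QI b) = 0 := by
  simp [QI, Derivation.leibniz, Derivation.leibniz_pow, pderiv_X_of_ne hi.symm,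
    pderiv_X_of_ne hi'.symm]

section derivs

variable {k : Type} [Field k] (b : Fin 10 → k) (P0 : Fin 4 → k)

theorem SM_d (i j : Fin 4) : pderiv i (X j : MvPolynomial (Fin 4) k) = if i = j then 1 else 0 := by
  split_ifs with h
  · subst h
    exact pderiv_X_self _
  · exact pderiv_X_of_ne (fun h' => h h'.symm)

theorem SM_f01 : eval P0 (pderiv 0 (X 1 ^ 2 - X 0 ^ 3 - 1 : MvPolynomial (Fin 4) k)) =
    -(3 * P0 0 ^ 2) := by
  simp [Derivation.leibniz_pow]

theorem SM_f02 : eval P0 (pderiv 1 (X 1 ^ 2 - X 0 ^ 3 - 1 : MvPolynomial (Fin 4) k)) =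
    2 * P0 1 := by
  simp [Derivation.leibniz_pow]

theorem SM_f03 (i : Fin 4) (h0 : i ≠ 0) (h1 : i ≠ 1) :
    pderiv i (X 1 ^ 2 - X 0 ^ 3 - 1 : MvPolynomial (Fin 4) k) = 0 := by
  simp [Derivation.leibniz_pow, h0, h1]

theorem SM_f11 : eval P0 (pderiv 0 (X 1 - X 0 ^ 3 - X 1 ^ 3 : MvPolynomial (Fin 4) k)) =
    -(3 * P0 0 ^ 2) := by
  simp [Derivation.leibniz_pow]

theorem SM_f12 : eval P0 (pderiv 1 (X 1 - X 0 ^ 3 - X 1 ^ 3 : MvPolynomial (Fin 4) k)) =
    1 - 3 * P0 1 ^ 2 := by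
  simp [Derivation.leibniz_pow]

theorem SM_f13 (i : Fin 4) (h0 : i ≠ 0) (h1 : i ≠ 1) :
    pderiv i (X 1 - X 0 ^ 3 - X 1 ^ 3 : MvPolynomial (Fin 4) k) = 0 := by
  simp [Derivation.leibniz_pow, h0, h1]

theorem SM_g01 : eval P0 (pderiv 2 (X 3 ^ 2 - X 2 ^ 3 - X 2 - QP b)) = -(3 * P0 2 ^ 2) - 1 := by
  simp [Derivation.leibniz_pow, SM_dQP]

theorem SM_g02 : eval P0 (pderiv 3 (X 3 ^ 2 - X 2 ^ 3 - X 2 - QP b)) = 2 * P0 3 := by
  simp [Derivation.leibniz_pow, SM_dQP]

theorem SM_g03 : eval P0 (pderiv 0 (X 3 ^ 2 - X 2 ^ 3 - X 2 - QP b)) = - Qd b (P0 0) := by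
  simp [Derivation.leibniz_pow, SM_dQP0]

theorem SM_g04 : eval P0 (pderiv 1 (X 3 ^ 2 - X 2 ^ 3 - X 2 - QP b)) = 0 := by
  simp [Derivation.leibniz_pow, SM_dQP]

theorem SM_g11 : eval P0 (pderiv 2 (X 3 - X 2 ^ 3 - X 2 * X 3 ^ 2 - QP b * X 3 ^ 3)) =
    -(3 * P0 2 ^ 2) - P0 3 ^ 2 := by
  simp [Derivation.leibniz_pow, SM_dQP]

theorem SM_g12 : eval P0 (pderiv 3 (X 3 - X 2 ^ 3 - X 2 * X 3 ^ 2 - QP b * X 3 ^ 3)) =
    1 - 2 * P0 2 * P0 3 - 3 * Qf b (P0 0) * P0 3 ^ 2 := by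
  simp [Derivation.leibniz_pow, SM_dQP, SM_QP]
  ring

theorem SM_g21 : eval P0 (pderiv 2 (X 3 ^ 2 - X 2 ^ 3 - X 1 ^ 4 * X 2 - QI b)) =
    -(3 * P0 2 ^ 2) - P0 1 ^ 4 := by
  simp [Derivation.leibniz_pow, SM_dQI]

theorem SM_g22 : eval P0 (pderiv 3 (X 3 ^ 2 - X 2 ^ 3 - X 1 ^ 4 * X 2 - QI b)) = 2 * P0 3 := by
  simp [Derivation.leibniz_pow, SM_dQI]

theorem SM_g31 : eval P0 (pderiv 2 (X 3 - X 2 ^ 3 - X 1 ^ 4 * X 2 * X 3 ^ 2 - QI b * X 3 ^ 3)) =
    -(3 * P0 2 ^ 2) - P0 1 ^ 4 * P0 3 ^ 2 := by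
  simp [Derivation.leibniz_pow, SM_dQI]
  ring

theorem SM_g32 : eval P0 (pderiv 3 (X 3 - X 2 ^ 3 - X 1 ^ 4 * X 2 * X 3 ^ 2 - QI b * X 3 ^ 3)) =
    1 - 2 * P0 1 ^ 4 * P0 2 * P0 3 - 3 * eval P0 (QI b) * P0 3 ^ 2 := by
  simp [Derivation.leibniz_pow, SM_dQI]
  ring

end derivs

/-- a minor from a nonzero gradient of `f0` in the first two variables and of `f1` in the last
two -/
theorem SM_minor {k : Type} [Field k] (P0 : Fin 4 → k) (f0 f1 : MvPolynomial (Fin 4) k)
    (h2 : pderiv 2 f0 = 0) (h3 : pderiv 3 f0 = 0)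
    (h : eval P0 (pderiv 0 f0) ≠ 0 ∨ eval P0 (pderiv 1 f0) ≠ 0)
    (h' : eval P0 (pderiv 2 f1) ≠ 0 ∨ eval P0 (pderiv 3 f1) ≠ 0) :
    ∃ i1 i2, eval P0 (pderiv i1 f0 * pderiv i2 f1 - pderiv i2 f0 * pderiv i1 f1) ≠ 0 := by
  rcases h with h | h <;> rcases h' with h' | h'
  · exact ⟨0, 2, by rw [h2, zero_mul, sub_zero, map_mul]; exact mul_ne_zero h h'⟩
  · exact ⟨0, 3, by rw [h3, zero_mul, sub_zero, map_mul]; exact mul_ne_zero h h'⟩
  · exact ⟨1, 2, by rw [h2, zero_mul, sub_zero, map_mul]; exact mul_ne_zero h h'⟩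
  · exact ⟨1, 3, by rw [h3, zero_mul, sub_zero, map_mul]; exact mul_ne_zero h h'⟩

theorem st_SM (hEQ : ST_EQ) (hP0 : ST_PRES0) (hP1 : ST_PRES1) (hP2 : ST_PRES2) (hP3 : ST_PRES3)
    (hJ : ST_JAC) (hG : ST_G1) : ST_SM := by
  intro k0 k L _ _ _ _ _ _ _ _ b t w x y hBD hES
  obtain ⟨hw, hy, heq⟩ := hEQ k L b t w x y hES
  have h3ne : (3 : k) ≠ 0 := three_ne_zero
  have h2ne : (2 : k) ≠ 0 := two_ne_zero
  -- chart 0
  have hc0 : Algebra.Smooth k (ch k t w x y 0) := by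
    refine hJ k L (co t w x y 0) (fe b 0) 0 (heq 0) (hP0 k L b t w x y hES)
      (fun h => absurd (map_zero _) h) fun P hP => Or.inr ?_
    have e0 : P 1 ^ 2 - P 0 ^ 3 - 1 = 0 := by
      have := hP 0
      simpa [fe] using this
    have e1 : P 3 ^ 2 - P 2 ^ 3 - P 2 - Qf b (P 0) = 0 := by
      have := hP 1
      simpa [fe, SM_QP] using this
    change ∃ i1 i2, eval P (pderiv i1 (X 1 ^ 2 - X 0 ^ 3 - 1) *
      pderiv i2 (X 3 ^ 2 - X 2 ^ 3 - X 2 - QP b) - pderiv i2 (X 1 ^ 2 - X 0 ^ 3 - 1) *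
      pderiv i1 (X 3 ^ 2 - X 2 ^ 3 - X 2 - QP b)) ≠ 0
    by_cases hg : eval P (pderiv 2 (X 3 ^ 2 - X 2 ^ 3 - X 2 - QP b)) ≠ 0 ∨
        eval P (pderiv 3 (X 3 ^ 2 - X 2 ^ 3 - X 2 - QP b)) ≠ 0
    · refine SM_minor P _ _ (SM_f03 2 (by decide) (by decide)) (SM_f03 3 (by decide) (by decide))
        ?_ hg
      rw [SM_f01, SM_f02]
      by_contra hcon
      push Not at hcon
      obtain ⟨h1, h2⟩ := hcon
      have h3 : P 1 = 0 := (mul_eq_zero.1 h2).resolve_left h2ne
      have h4 : P 0 = 0 := by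
        have : 3 * P 0 ^ 2 = 0 := neg_eq_zero.1 h1
        exact pow_eq_zero_iff (two_ne_zero) |>.1 ((mul_eq_zero.1 this).resolve_left h3ne)
      rw [h3, h4] at e0
      norm_num at e0
    · rw [SM_g01, SM_g02] at hg
      push Not at hg
      obtain ⟨h1, h2⟩ := hg
      have h3 : P 3 = 0 := (mul_eq_zero.1 h2).resolve_left h2ne
      refine ⟨1, 0, ?_⟩
      rw [map_sub, map_mul, map_mul, SM_f02, SM_g03, SM_f01, SM_g04]
      have h30 : (3 : k0) ≠ 0 := by
        intro h0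
        apply h3ne
        have := congrArg (algebraMap k0 k) h0
        rw [map_ofNat, map_zero] at this
        exact this
      obtain ⟨ξ, hξ⟩ := IsAlgClosed.exists_pow_nat_eq (-1 / 3 : k0) (n := 2) (by norm_num)
      have hξ' : (algebraMap k0 k ξ) ^ 2 = P 2 ^ 2 := by
        rw [← map_pow, hξ]
        have h4 : (3 : k) * P 2 ^ 2 = -1 := by linear_combination -h1
        apply mul_left_cancel₀ h3ne
        rw [h4, map_div₀, map_neg, map_one]
        have h5 : algebraMap k0 k 3 = 3 := map_ofNat _ 3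
        rw [h5]
        field_simp
      have hc : ∃ c : k0, Qf b (P 0) = algebraMap k0 k c := by
        rcases sq_eq_sq_iff_eq_or_eq_neg.1 hξ' with h5 | h5
        · refine ⟨-ξ ^ 3 - ξ, ?_⟩
          rw [map_sub, map_neg, map_pow, h5]
          rw [h3] at e1
          linear_combination -e1
        · refine ⟨ξ ^ 3 + ξ, ?_⟩
          rw [map_add, map_pow, h5]
          rw [h3] at e1
          linear_combination -e1
      obtain ⟨c, hc⟩ := hc
      have h6 := hG k0 k b hBD (P 0) (P 1) c (by linear_combination e0) hc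
      intro h7
      apply h6
      linear_combination -h7
  have hgrad0 : ∀ P : Fin 4 → k, P 1 ^ 2 - P 0 ^ 3 - 1 = 0 → -(3 * P 0 ^ 2) ≠ 0 ∨ 2 * P 1 ≠ 0 := by
    intro P e0
    by_contra hcon
    push Not at hcon
    obtain ⟨h1, h2⟩ := hcon
    have h3 : P 1 = 0 := (mul_eq_zero.1 h2).resolve_left h2ne
    have h4 : P 0 = 0 := by
      have : 3 * P 0 ^ 2 = 0 := neg_eq_zero.1 h1
      exact pow_eq_zero_iff (two_ne_zero) |>.1 ((mul_eq_zero.1 this).resolve_left h3ne)
    rw [h3, h4] at e0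
    norm_num at e0
  -- chart 1
  have hc1 : Algebra.Smooth k (ch k t w x y 1) := by
    refine hJ k L (co t w x y 1) (fe b 1) 0 (heq 1) (hP1 k L b t w x y hES)
      (fun h => absurd (map_zero _) h) fun P hP => Or.inr ?_
    have e0 : P 1 ^ 2 - P 0 ^ 3 - 1 = 0 := by
      have := hP 0
      simpa [fe] using this
    have e1 : P 3 - P 2 ^ 3 - P 2 * P 3 ^ 2 - Qf b (P 0) * P 3 ^ 3 = 0 := by
      have := hP 1
      simpa [fe, SM_QP] using this
    refine SM_minor P _ _ (SM_f03 2 (by decide) (by decide)) (SM_f03 3 (by decide) (by decide))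
      ?_ ?_
    · change eval P (pderiv 0 (X 1 ^ 2 - X 0 ^ 3 - 1)) ≠ 0 ∨
        eval P (pderiv 1 (X 1 ^ 2 - X 0 ^ 3 - 1)) ≠ 0
      rw [SM_f01, SM_f02]
      exact hgrad0 P e0
    · change eval P (pderiv 2 (X 3 - X 2 ^ 3 - X 2 * X 3 ^ 2 - QP b * X 3 ^ 3)) ≠ 0 ∨
        eval P (pderiv 3 (X 3 - X 2 ^ 3 - X 2 * X 3 ^ 2 - QP b * X 3 ^ 3)) ≠ 0
      rw [SM_g11, SM_g12]
      by_contra hcon
      push Not at hcon
      obtain ⟨h1, h2⟩ := hcon
      have h3 : 2 * P 3 = 0 := by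
        linear_combination -P 2 * h1 - P 3 * h2 + 3 * e1
      have h4 : P 3 = 0 := (mul_eq_zero.1 h3).resolve_left h2ne
      rw [h4] at h2
      norm_num at h2
  -- chart 3
  have hc3 : Algebra.Smooth k (ch k t w x y 3) := by
    refine hJ k L (co t w x y 3) (fe b 3) 0 (heq 3) (hP3 k L b t w x y hES)
      (fun h => absurd (map_zero _) h) fun P hP => Or.inr ?_
    have e0 : P 1 - P 0 ^ 3 - P 1 ^ 3 = 0 := by
      have := hP 0
      simpa [fe] using this
    have e1 : P 3 - P 2 ^ 3 - P 1 ^ 4 * P 2 * P 3 ^ 2 - eval P (QI b) * P 3 ^ 3 = 0 := by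
      have := hP 1
      simpa [fe] using this
    refine SM_minor P _ _ (SM_f13 2 (by decide) (by decide)) (SM_f13 3 (by decide) (by decide))
      ?_ ?_
    · change eval P (pderiv 0 (X 1 - X 0 ^ 3 - X 1 ^ 3)) ≠ 0 ∨
        eval P (pderiv 1 (X 1 - X 0 ^ 3 - X 1 ^ 3)) ≠ 0
      rw [SM_f11, SM_f12]
      by_contra hcon
      push Not at hcon
      obtain ⟨h1, h2⟩ := hcon
      have h3 : 2 * P 1 = 0 := by
        linear_combination 3 * e0 - P 0 * h1 - P 1 * h2
      have h4 : P 1 = 0 := (mul_eq_zero.1 h3).resolve_left h2ne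
      rw [h4] at h2
      norm_num at h2
    · change eval P (pderiv 2 (X 3 - X 2 ^ 3 - X 1 ^ 4 * X 2 * X 3 ^ 2 - QI b * X 3 ^ 3)) ≠ 0 ∨
        eval P (pderiv 3 (X 3 - X 2 ^ 3 - X 1 ^ 4 * X 2 * X 3 ^ 2 - QI b * X 3 ^ 3)) ≠ 0
      rw [SM_g31, SM_g32]
      by_contra hcon
      push Not at hcon
      obtain ⟨h1, h2⟩ := hcon
      have h3 : 2 * P 3 = 0 := by
        linear_combination -P 2 * h1 - P 3 * h2 + 3 * e1
      have h4 : P 3 = 0 := (mul_eq_zero.1 h3).resolve_left h2ne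
      rw [h4] at h2
      norm_num at h2
  -- chart 2
  have hc2 : Algebra.Smooth k (ch k t w x y 2) := by
    have hwinv : aeval (co t w x y 2) (X 1 : MvPolynomial (Fin 4) k) = 1 / w := by
      rw [aeval_X]
      rfl
    refine hJ k L (co t w x y 2) (fe b 2) (X 1) (heq 2) (hP2 k L b t w x y hES)
      (fun _ => ?_) fun P hP => ?_
    · rw [hwinv]
      have hin : ∀ j, co t w x y 2 j ∈ Algebra.adjoin k (Set.range (co t w x y 2) ∪ {(1 / w)⁻¹}) :=
        fun j => Algebra.subset_adjoin (Or.inl ⟨j, rfl⟩)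
      have hwin : w ∈ Algebra.adjoin k (Set.range (co t w x y 2) ∪ {(1 / w)⁻¹}) := by
        have h1 : w = (1 / w)⁻¹ := by rw [one_div, inv_inv]
        exact Algebra.subset_adjoin (Or.inr (Set.mem_singleton_iff.2 h1))
      have hin0 : ∀ j, co t w x y 0 j ∈ ch k t w x y 0 := fun j => Algebra.subset_adjoin ⟨j, rfl⟩
      refine SM_loc (ch k t w x y 0) _ w hw (hin0 1) ?_ ?_ ?_ hc0
      · refine Algebra.adjoin_le ?_
        rintro _ ⟨j, rfl⟩
        fin_cases j
        · have h1 : co t w x y 0 0 = co t w x y 2 0 * w := (div_mul_cancel₀ t hw).symm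
          change co t w x y 0 0 ∈ _
          rw [h1]
          exact mul_mem (hin 0) hwin
        · exact hwin
        · have h1 : co t w x y 0 2 = co t w x y 2 2 * w ^ 2 :=
            (div_mul_cancel₀ x (pow_ne_zero 2 hw)).symm
          change co t w x y 0 2 ∈ _
          rw [h1]
          exact mul_mem (hin 2) (pow_mem hwin 2)
        · have h1 : co t w x y 0 3 = co t w x y 2 3 * w ^ 3 :=
            (div_mul_cancel₀ y (pow_ne_zero 3 hw)).symm
          change co t w x y 0 3 ∈ _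
          rw [h1]
          exact mul_mem (hin 3) (pow_mem hwin 3)
      · have h1 : w⁻¹ = co t w x y 2 1 := (one_div w).symm
        rw [h1]
        exact hin 1
      · refine SM_adj _ w (hin0 1) _ ?_
        rintro z (⟨j, rfl⟩ | hz)
        · fin_cases j
          · refine ⟨1, ?_⟩
            have h1 : co t w x y 2 0 * w ^ 1 = co t w x y 0 0 := by
              rw [pow_one]
              exact div_mul_cancel₀ t hw
            change co t w x y 2 0 * w ^ 1 ∈ _
            rw [h1]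
            exact hin0 0
          · refine ⟨1, ?_⟩
            have h1 : co t w x y 2 1 * w ^ 1 = 1 := by
              rw [pow_one]
              exact div_mul_cancel₀ 1 hw
            change co t w x y 2 1 * w ^ 1 ∈ _
            rw [h1]
            exact one_mem _
          · refine ⟨2, ?_⟩
            have h1 : co t w x y 2 2 * w ^ 2 = co t w x y 0 2 :=
              div_mul_cancel₀ x (pow_ne_zero 2 hw)
            change co t w x y 2 2 * w ^ 2 ∈ _
            rw [h1]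
            exact hin0 2
          · refine ⟨3, ?_⟩
            have h1 : co t w x y 2 3 * w ^ 3 = co t w x y 0 3 :=
              div_mul_cancel₀ y (pow_ne_zero 3 hw)
            change co t w x y 2 3 * w ^ 3 ∈ _
            rw [h1]
            exact hin0 3
        · rw [Set.mem_singleton_iff] at hz
          subst hz
          refine ⟨0, ?_⟩
          rw [pow_zero, mul_one, one_div, inv_inv]
          exact hin0 1
    · rw [eval_X]
      by_cases hr : P 1 = 0
      · right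
        have e0 : P 1 - P 0 ^ 3 - P 1 ^ 3 = 0 := by
          have := hP 0
          simpa [fe] using this
        have e1 : P 3 ^ 2 - P 2 ^ 3 - P 1 ^ 4 * P 2 - eval P (QI b) = 0 := by
          have := hP 1
          simpa [fe] using this
        have h0 : P 0 = 0 := by
          rw [hr] at e0
          have : P 0 ^ 3 = 0 := by linear_combination -e0
          exact pow_eq_zero_iff (three_ne_zero) |>.1 this
        have hQI : eval P (QI b) = b 9 := by
          simp [QI, h0, hr]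
        refine SM_minor P _ _ (SM_f13 2 (by decide) (by decide))
          (SM_f13 3 (by decide) (by decide)) ?_ ?_
        · change eval P (pderiv 0 (X 1 - X 0 ^ 3 - X 1 ^ 3)) ≠ 0 ∨
            eval P (pderiv 1 (X 1 - X 0 ^ 3 - X 1 ^ 3)) ≠ 0
          rw [SM_f11, SM_f12, hr]
          right
          norm_num
        · change eval P (pderiv 2 (X 3 ^ 2 - X 2 ^ 3 - X 1 ^ 4 * X 2 - QI b)) ≠ 0 ∨
            eval P (pderiv 3 (X 3 ^ 2 - X 2 ^ 3 - X 1 ^ 4 * X 2 - QI b)) ≠ 0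
          rw [SM_g21, SM_g22]
          by_contra hcon
          push Not at hcon
          obtain ⟨h1, h2⟩ := hcon
          rw [hr] at h1 e1
          have h3 : P 3 = 0 := (mul_eq_zero.1 h2).resolve_left h2ne
          have h4 : P 2 = 0 := by
            have : 3 * P 2 ^ 2 = 0 := by linear_combination -h1
            exact pow_eq_zero_iff (two_ne_zero) |>.1 ((mul_eq_zero.1 this).resolve_left h3ne)
          rw [h3, h4, hQI] at e1
          have h5 : b 9 = 0 := by linear_combination -e1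
          have h6 := hBD.indep.transcendental 9
          apply h6
          rw [h5]
          exact isAlgebraic_zero
      · exact Or.inl hr
  intro i
  fin_cases i
  · exact hc0
  · exact hc1
  · exact hc2
  · exact hc3

end Pool.Agent.Helper8.SPV
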